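import Pool.Agent.W667.DT.Stms

set_option autoImplicit false
set_option maxSynthPendingDepth 3

namespace Pool.Agent.W240.DT

open Pool.Agent.Helper832.GD Pool.Agent.Helper832.GD.Bim ContinuousLinearMap Topology
open Pool.Agent.W667.DT Filter

noncomputable section

section Ind

variable {P Q : Type} [NormedAddCommGroup P] [NormedSpace ℂ P]
  [NormedAddCommGroup Q] [NormedSpace ℂ Q]

theorem tens_closed_ind (M : Set (Tens P Q)) (hc : IsClosed M) (h0 : (0 : Tens P Q) ∈ M)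
    (hadd : ∀ a ∈ M, ∀ b ∈ M, a + b ∈ M) (hsmul : ∀ (c : ℂ), ∀ a ∈ M, c • a ∈ M)
    (ht : ∀ p q, (tens p q : Tens P Q) ∈ M) : ∀ t, t ∈ M := by
  have hle : (spanTm P Q : Set (BD P Q)) ⊆ (tensSub P Q : Set (BD P Q)) :=
    Submodule.le_topologicalClosure _
  have hd : DenseRange (Set.inclusion hle) := by
    rw [denseRange_inclusion_iff]
    exact le_of_eq rfl
  have hx : ∀ x (hx : x ∈ spanTm P Q), mkT x (hle hx) ∈ M := by
    intro x hx
    have hx' : x ∈ Submodule.span ℂ (Set.range (fun pq : P × Q => tm pq.1 pq.2)) := hx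
    induction hx' using Submodule.span_induction with
    | mem y hy =>
      obtain ⟨⟨p, q⟩, rfl⟩ := hy
      exact ht p q
    | zero => exact h0
    | add y z hy hz h1 h2 =>
      rw [mkT_add y z (hle hy) (hle hz)]
      exact hadd _ (h1 hy) _ (h2 hz)
    | smul c y hy h1 =>
      rw [mkT_smul c y (hle hy)]
      exact hsmul c _ (h1 hy)
  intro t
  have h1 : Set.range (Set.inclusion hle) ⊆ M := by
    rintro _ ⟨x, rfl⟩
    exact hx x.1 x.2
  have h2 : closure (Set.range (Set.inclusion hle)) ⊆ M := (hc.closure_subset_iff).2 h1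
  exact h2 (hd t)

end Ind

variable {Ω : Type} [TopologicalSpace Ω] [CompactSpace Ω] [T2Space Ω]

/-- the support condition -/
def Sp (p : Ω) (t : Tens (KS p) (KS p)) : Prop :=
  ∃ D : ℕ → Set Ω, (∀ n, IsClopen (D n) ∧ p ∉ D n) ∧
    ∀ y x y' x' : Ω, (x ∉ ⋃ n, D n) ∨ (x' ∉ ⋃ n, D n) → E4 p (y, x) (y', x') t = 0

theorem suppK [TotallyDisconnectedSpace Ω] (p : Ω) (k : KS p) :
    ∃ D : ℕ → Set Ω, (∀ n, IsClopen (D n) ∧ p ∉ D n) ∧
      ∀ y x : Ω, (x ∉ ⋃ n, D n) → k.1 (y, x) = 0 := by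
  have h : ∀ n : ℕ, ∃ D : Set Ω, IsClopen D ∧ p ∉ D ∧
      ∀ y x : Ω, 1 / ((n : ℝ) + 1) ≤ ‖k.1 (y, x)‖ → x ∈ D := by
    intro n
    have hcl : IsClosed {w : Ω × Ω | 1 / ((n : ℝ) + 1) ≤ ‖k.1 w‖} :=
      isClosed_le continuous_const (k.1.continuous.norm)
    have hK : IsClosed (Prod.snd '' {w : Ω × Ω | 1 / ((n : ℝ) + 1) ≤ ‖k.1 w‖}) :=
      (hcl.isCompact.image continuous_snd).isClosed
    have hp : Prod.snd '' {w : Ω × Ω | 1 / ((n : ℝ) + 1) ≤ ‖k.1 w‖} ⊆ ({p}ᶜ : Set Ω) := by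
      rintro _ ⟨⟨y, x⟩, hw, rfl⟩ hxp
      have hxp' : x = p := hxp
      subst hxp'
      have h0 : k.1 (y, x) = 0 := k.2.1 y
      have hw' : 1 / ((n : ℝ) + 1) ≤ ‖k.1 (y, x)‖ := hw
      rw [h0, norm_zero] at hw'
      have : (0 : ℝ) < 1 / ((n : ℝ) + 1) := by positivity
      linarith
    obtain ⟨C, hC1, hC2, hC3⟩ := exists_clopen_of_closed_subset_open hK
      (isClosed_singleton.isOpen_compl) hp
    exact ⟨C, hC1, fun h => hC3 h rfl, fun y x h => hC2 ⟨(y, x), h, rfl⟩⟩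
  choose D hD1 hD2 hD3 using h
  refine ⟨D, fun n => ⟨hD1 n, hD2 n⟩, fun y x hx => ?_⟩
  by_contra hne
  have hpos : 0 < ‖k.1 (y, x)‖ := norm_pos_iff.2 hne
  obtain ⟨n, hn⟩ := exists_nat_one_div_lt hpos
  exact hx (Set.mem_iUnion.2 ⟨n, hD3 n y x hn.le⟩)

/-- countably many countable families are one countable family -/
theorem merge (p : Ω) (D : ℕ → ℕ → Set Ω) (hD : ∀ m n, IsClopen (D m n) ∧ p ∉ D m n) :
    ∃ E : ℕ → Set Ω, (∀ n, IsClopen (E n) ∧ p ∉ E n) ∧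
      ∀ x, (x ∉ ⋃ n, E n) → ∀ m, x ∉ ⋃ n, D m n := by
  refine ⟨fun n => D n.unpair.1 n.unpair.2, fun n => hD _ _, fun x hx m hm => hx ?_⟩
  obtain ⟨n, hn⟩ := Set.mem_iUnion.1 hm
  refine Set.mem_iUnion.2 ⟨Nat.pair m n, ?_⟩
  simpa using hn

theorem merge2 (p : Ω) (D D' : ℕ → Set Ω) (hD : ∀ n, IsClopen (D n) ∧ p ∉ D n)
    (hD' : ∀ n, IsClopen (D' n) ∧ p ∉ D' n) :
    ∃ E : ℕ → Set Ω, (∀ n, IsClopen (E n) ∧ p ∉ E n) ∧
      ∀ x, (x ∉ ⋃ n, E n) → (x ∉ ⋃ n, D n) ∧ (x ∉ ⋃ n, D' n) := by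
  obtain ⟨E, hE1, hE2⟩ := merge p (fun m => if m = 0 then D else D') (fun m n => by
    by_cases h : m = 0
    · simp only [h, if_true]; exact hD n
    · simp only [h, if_false]; exact hD' n)
  refine ⟨E, hE1, fun x hx => ⟨?_, ?_⟩⟩
  · simpa using hE2 x hx 0
  · simpa using hE2 x hx 1

theorem supp : S_SUPP := by
  intro Ω _ _ _ _ p t
  refine tens_closed_ind {t | Sp p t} ?_ ?_ ?_ ?_ ?_ t
  · rw [← isSeqClosed_iff_isClosed]
    intro s t hs hst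
    choose D hD1 hD2 using hs
    obtain ⟨E, hE1, hE2⟩ := merge p D hD1
    refine ⟨E, hE1, fun y x y' x' h => ?_⟩
    have h1 : Tendsto (fun n => E4 p (y, x) (y', x') (s n)) atTop
        (𝓝 (E4 p (y, x) (y', x') t)) := ((E4 p (y, x) (y', x')).continuous.tendsto t).comp hst
    have h2 : ∀ n, E4 p (y, x) (y', x') (s n) = 0 := fun n =>
      hD2 n y x y' x' (h.imp (fun h => hE2 x h n) (fun h => hE2 x' h n))
    simp only [h2] at h1
    exact tendsto_nhds_unique h1 tendsto_const_nhds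
  · exact ⟨fun _ => ∅, fun _ => ⟨isClopen_empty, fun h => h⟩, fun y x y' x' _ => map_zero _⟩
  · rintro a ⟨D, hD1, hD2⟩ b ⟨D', hD1', hD2'⟩
    obtain ⟨E, hE1, hE2⟩ := merge2 p D D' hD1 hD1'
    refine ⟨E, hE1, fun y x y' x' h => ?_⟩
    rw [map_add, hD2 y x y' x' (h.imp (fun h => (hE2 x h).1) (fun h => (hE2 x' h).1)),
      hD2' y x y' x' (h.imp (fun h => (hE2 x h).2) (fun h => (hE2 x' h).2)), add_zero]
  · rintro c a ⟨D, hD1, hD2⟩
    refine ⟨D, hD1, fun y x y' x' h => ?_⟩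
    rw [map_smul, hD2 y x y' x' h, smul_zero]
  · intro k k'
    obtain ⟨D, hD1, hD2⟩ := suppK p k
    obtain ⟨D', hD1', hD2'⟩ := suppK p k'
    obtain ⟨E, hE1, hE2⟩ := merge2 p D D' hD1 hD1'
    refine ⟨E, hE1, fun y x y' x' h => ?_⟩
    rw [E4_tens]
    rcases h with h | h
    · rw [hD2 y x (hE2 x h).1, zero_mul]
    · rw [hD2' y' x' (hE2 x' h).2, mul_zero]

end

end Pool.Agent.W240.DT
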